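import Pool.Agent.N370.EC.Struct

set_option autoImplicit false
set_option linter.unusedSectionVars false

namespace Pool.Agent.N370.EC

open Finset

variable {V : Type} [Fintype V] [DecidableEq V] {G : SimpleGraph V} [DecidableRel G.Adj]

lemma nb_le_erase {O : Finset V} {v : V} (hv : v ∈ O) : nb G v O + 1 ≤ #O := by
  unfold nb
  have h1 : O.filter (fun w => G.Adj v w) ⊆ O.erase v := by
    intro w hw
    rw [mem_filter] at hw
    exact mem_erase.2 ⟨hw.2.ne.symm, hw.1⟩
  have h2 := card_le_card h1
  rw [card_erase_of_mem hv] at h2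
  have h3 := card_pos.2 ⟨v, hv⟩
  omega

section

variable (hc : G.Connected) (hδ : ∀ v, 2 ≤ G.degree v) {A : Finset V} {F : Finset (Finset V)}

include hδ in
/-- the sizes of the odd sets -/
lemma Fam.sizes (hF : Fam G A F) (heq : #G.edgeFinset + #A = #F + Fintype.card V)
    (h1 : ∀ O ∈ F, ∑ v ∈ O, nb G v A + ∑ v ∈ O, xs G v = 2)
    (heps : ∀ O ∈ F, 1 ≤ ∑ v ∈ O, nb G v A)
    (h3 : rest A F = ∅) (h4 : 2 * #{v | G.degree v = 2} = #G.edgeFinset) :
    ∀ O ∈ F, #O = 1 + 2 * ∑ v ∈ O, xs G v := by
  -- pointwise inequality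
  have hpt : ∀ O ∈ F, #O + 1 + 2 * ∑ v ∈ O, xs G v ≤ 2 * #O := by
    intro O hO
    have h5 := h1 O hO
    have h6 := heps O hO
    have h7 := hF.odd O hO
    have h8 := hF.sum_deg hδ hO
    rw [Nat.odd_iff] at h7
    by_cases h9 : #O = 1
    · have h10 : ∑ v ∈ O, nb G v O = 0 := by
        rw [sum_eq_zero_iff]
        intro v hv
        have := nb_le_erase (G := G) hv
        omega
      omega
    · omega
  have hsum : ∑ O ∈ F, #O + #A = Fintype.card V := by
    have h5 := hF.sum_split (fun _ => 1)
    simp only [sum_const, smul_eq_mul, mul_one] at h5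
    rw [h3, card_empty, add_zero] at h5
    rw [← h5, ← card_univ, card_sdiff_add_card_eq_card (subset_univ A)]
  have hn2 : ∑ O ∈ F, (#O) ≤ #{v | G.degree v = 2} + ∑ O ∈ F, ∑ v ∈ O, xs G v := by
    have h5 : #{v | G.degree v = 2} = ∑ v, if G.degree v = 2 then 1 else 0 := by
      rw [card_filter]
    have h6 := hF.sum_split (fun v => if G.degree v = 2 then 1 else 0)
    rw [h3, sum_empty, add_zero] at h6
    have h7 : ∑ v ∈ univ \ A, (if G.degree v = 2 then 1 else 0) ≤
        ∑ v, if G.degree v = 2 then 1 else 0 :=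
      sum_le_sum_of_subset (sdiff_subset)
    have h8 : ∑ O ∈ F, #O ≤ ∑ O ∈ F, (∑ v ∈ O, (if G.degree v = 2 then 1 else 0) +
        ∑ v ∈ O, xs G v) := by
      refine sum_le_sum fun O _ => ?_
      rw [← sum_add_distrib, card_eq_sum_ones]
      refine sum_le_sum fun v _ => ?_
      unfold xs
      have := hδ v
      split_ifs with h
      · omega
      · omega
    rw [sum_add_distrib] at h8
    omega
  have hle : ∑ O ∈ F, 2 * #O ≤ ∑ O ∈ F, (#O + 1 + 2 * ∑ v ∈ O, xs G v) := by
    rw [← mul_sum, sum_add_distrib, sum_add_distrib, ← mul_sum, sum_const, smul_eq_mul, mul_one]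
    omega
  have h10 := (sum_eq_sum_iff_of_le hpt).1 (le_antisymm (sum_le_sum hpt) hle)
  intro O hO
  have := h10 O hO
  omega

end

/-! ### local counts -/

/-- the edges which meet `O` -/
def EO (G : SimpleGraph V) [DecidableRel G.Adj] (O : Finset V) : Finset (Sym2 V) :=
  G.edgeFinset.filter (fun e => ∃ v ∈ O, v ∈ e)

/-- the sets of edges meeting `O` which cover `O` -/
def cov (G : SimpleGraph V) [DecidableRel G.Adj] (O : Finset V) : Finset (Finset (Sym2 V)) :=
  (EO G O).powerset.filter (fun S => ∀ v ∈ O, ∃ e ∈ S, v ∈ e)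

lemma cov_one {v : V} (h : G.degree v = 2) : #(cov G {v}) ≤ 3 := by
  have h1 : #(EO G {v}) = 2 := by
    rw [← h, ← SimpleGraph.card_incidenceFinset_eq_degree]
    congr 1
    ext e
    unfold EO
    simp only [mem_filter, SimpleGraph.mem_edgeFinset, mem_singleton, exists_eq_left,
      SimpleGraph.mem_incidenceFinset]
    rfl
  have h2 : cov G {v} ⊆ (EO G {v}).powerset.erase ∅ := by
    intro S hS
    unfold cov at hS
    rw [mem_filter] at hS
    obtain ⟨e, he, _⟩ := hS.2 v (mem_singleton_self v)
    exact mem_erase.2 ⟨ne_empty_of_mem he, hS.1⟩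
  have h3 := card_le_card h2
  rw [card_erase_of_mem (empty_mem_powerset _), card_powerset, h1] at h3
  exact h3

lemma cov_tri {x y z : V} (hxy : G.Adj x y) (hxz : G.Adj x z) (hyz : G.Adj y z)
    (hx : G.degree x = 2) (hy : G.degree y = 2) (hz : G.degree z = 3) :
    #(cov G {x, y, z}) ≤ 9 := by
  have hNx : G.neighborFinset x = {y, z} := by
    symm
    apply eq_of_subset_of_card_le
    · intro w hw
      rw [mem_insert, mem_singleton] at hw
      rw [SimpleGraph.mem_neighborFinset]
      rcases hw with rfl | rfl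
      · exact hxy
      · exact hxz
    · rw [SimpleGraph.card_neighborFinset_eq_degree, hx, card_pair hyz.ne]
  have hNy : G.neighborFinset y = {x, z} := by
    symm
    apply eq_of_subset_of_card_le
    · intro w hw
      rw [mem_insert, mem_singleton] at hw
      rw [SimpleGraph.mem_neighborFinset]
      rcases hw with rfl | rfl
      · exact hxy.symm
      · exact hyz
    · rw [SimpleGraph.card_neighborFinset_eq_degree, hy, card_pair hxz.ne]
  obtain ⟨u, hu⟩ : ∃ u, G.neighborFinset z \ {x, y} = {u} := by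
    rw [← card_eq_one, card_sdiff_of_subset, SimpleGraph.card_neighborFinset_eq_degree, hz,
      card_pair hxy.ne]
    intro w hw
    rw [mem_insert, mem_singleton] at hw
    rw [SimpleGraph.mem_neighborFinset]
    rcases hw with rfl | rfl
    · exact hxz.symm
    · exact hyz.symm
  have hu1 : u ∈ G.neighborFinset z \ {x, y} := by rw [hu]; simp
  rw [mem_sdiff, mem_insert, mem_singleton, not_or] at hu1
  have huz : G.Adj z u := by simpa using hu1.1
  have hNz : ∀ w, G.Adj z w → w = x ∨ w = y ∨ w = u := by
    intro w hw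
    by_cases h : w ∈ ({x, y} : Finset V)
    · rw [mem_insert, mem_singleton] at h
      tauto
    · have : w ∈ G.neighborFinset z \ {x, y} := mem_sdiff.2 ⟨by simpa using hw, h⟩
      rw [hu, mem_singleton] at this
      exact Or.inr (Or.inr this)
  have hsub : ∀ e ∈ EO G {x, y, z}, e = s(x, y) ∨ e = s(x, z) ∨ e = s(y, z) ∨ e = s(z, u) := by
    intro e he
    unfold EO at he
    rw [mem_filter, SimpleGraph.mem_edgeFinset] at he
    obtain ⟨h1, v, hv, hve⟩ := he
    obtain ⟨w, rfl⟩ := Sym2.mem_iff_exists.1 hve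
    rw [SimpleGraph.mem_edgeSet] at h1
    simp only [mem_insert, mem_singleton] at hv
    rcases hv with rfl | rfl | rfl
    · have : w ∈ G.neighborFinset v := by simpa using h1
      rw [hNx, mem_insert, mem_singleton] at this
      rcases this with rfl | rfl
      · exact Or.inl rfl
      · exact Or.inr (Or.inl rfl)
    · have : w ∈ G.neighborFinset v := by simpa using h1
      rw [hNy, mem_insert, mem_singleton] at this
      rcases this with rfl | rfl
      · exact Or.inl Sym2.eq_swap
      · exact Or.inr (Or.inr (Or.inl rfl))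
    · rcases hNz w h1 with rfl | rfl | rfl
      · exact Or.inr (Or.inl Sym2.eq_swap)
      · exact Or.inr (Or.inr (Or.inl Sym2.eq_swap))
      · exact Or.inr (Or.inr (Or.inr rfl))
  set T : Finset (Bool × Bool × Bool × Bool) := univ.filter
    (fun q => (q.1 || q.2.1) && (q.1 || q.2.2.1) && (q.2.1 || q.2.2.1 || q.2.2.2)) with hT
  have hTcard : #T = 9 := by rw [hT]; decide
  rw [← hTcard]
  refine card_le_card_of_injOn
    (fun S => (decide (s(x, y) ∈ S), decide (s(x, z) ∈ S), decide (s(y, z) ∈ S),
      decide (s(z, u) ∈ S))) ?_ ?_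
  · intro S hS
    unfold cov at hS
    rw [mem_coe, mem_filter, mem_powerset] at hS
    rw [mem_coe, hT, mem_filter]
    refine ⟨mem_univ _, ?_⟩
    obtain ⟨hS1, hS2⟩ := hS
    have hx1 : s(x, y) ∈ S ∨ s(x, z) ∈ S := by
      obtain ⟨e, he, hxe⟩ := hS2 x (by simp)
      rcases hsub e (hS1 he) with rfl | rfl | rfl | rfl
      · exact Or.inl he
      · exact Or.inr he
      · rw [Sym2.mem_iff] at hxe
        rcases hxe with rfl | rfl
        · exact absurd rfl hxy.ne
        · exact absurd rfl hxz.ne
      · rw [Sym2.mem_iff] at hxe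
        rcases hxe with rfl | rfl
        · exact absurd rfl hxz.ne
        · exact absurd rfl hu1.2.1
    have hy1 : s(x, y) ∈ S ∨ s(y, z) ∈ S := by
      obtain ⟨e, he, hxe⟩ := hS2 y (by simp)
      rcases hsub e (hS1 he) with rfl | rfl | rfl | rfl
      · exact Or.inl he
      · rw [Sym2.mem_iff] at hxe
        rcases hxe with rfl | rfl
        · exact absurd rfl hxy.ne
        · exact absurd rfl hyz.ne
      · exact Or.inr he
      · rw [Sym2.mem_iff] at hxe
        rcases hxe with rfl | rfl
        · exact absurd rfl hyz.ne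
        · exact absurd rfl hu1.2.2
    have hz1 : s(x, z) ∈ S ∨ s(y, z) ∈ S ∨ s(z, u) ∈ S := by
      obtain ⟨e, he, hxe⟩ := hS2 z (by simp)
      rcases hsub e (hS1 he) with rfl | rfl | rfl | rfl
      · rw [Sym2.mem_iff] at hxe
        rcases hxe with rfl | rfl
        · exact absurd rfl hxz.ne
        · exact absurd rfl hyz.ne
      · exact Or.inl he
      · exact Or.inr (Or.inl he)
      · exact Or.inr (Or.inr he)
    simp only [Bool.and_eq_true, Bool.or_eq_true, decide_eq_true_eq]
    tauto
  · intro S hS S' hS' hSS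
    unfold cov at hS hS'
    rw [mem_coe, mem_filter, mem_powerset] at hS hS'
    simp only [Prod.mk.injEq, decide_eq_decide] at hSS
    ext e
    constructor
    · intro he
      rcases hsub e (hS.1 he) with rfl | rfl | rfl | rfl <;> tauto
    · intro he
      rcases hsub e (hS'.1 he) with rfl | rfl | rfl | rfl <;> tauto

end Pool.Agent.N370.EC
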