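import Pool.Agent.N370.EC.Poly

set_option autoImplicit false
set_option linter.unusedSectionVars false

namespace Pool.Agent.N370.EC

open Finset Polynomial

variable {V : Type} [Fintype V] [DecidableEq V] {G : SimpleGraph V} [DecidableRel G.Adj]

/-- the numerical data of a polynomial with the roots `0` and one more -/
lemma numbers (hδ : ∀ v, 2 ≤ G.degree v) (hm2 : 2 ≤ #G.edgeFinset) {a j : ℕ} {c : ℂ}
    (haj : a + j = #G.edgeFinset) (hp : edgeCoverPoly G = X ^ a * (X + C c) ^ j) :
    ∃ q : ℕ, #G.edgeFinset = j * q ∧ total G = (1 + q) ^ j ∧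
      2 * #{v | G.degree v = 2} + #G.edgeFinset = #G.edgeFinset * q := by
  have hj : j ≠ 0 := by
    rintro rfl
    have h := coeff_eq G (#G.edgeFinset - 1)
    rw [coverCount_pred hδ (by omega), hp, pow_zero, mul_one, coeff_X_pow, if_neg (by omega)] at h
    have : #G.edgeFinset = 0 := by exact_mod_cast h.symm
    omega
  -- the coefficient of order `m - 1`
  have h1 : c * j = #G.edgeFinset := by
    have h := coeff_eq G (#G.edgeFinset - 1)
    rw [coverCount_pred hδ (by omega), hp, coeff_X_pow_mul', if_pos (by omega),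
      coeff_X_add_C_pow] at h
    rw [← h]
    have e1 : #G.edgeFinset - 1 - a = j - 1 := by omega
    have e2 : j - (j - 1) = 1 := by omega
    have e3 : j.choose (j - 1) = j := by
      rw [Nat.choose_symm (by omega : 1 ≤ j), Nat.choose_one_right]
    rw [e1, e2, e3, pow_one]
  -- the coefficient of order `m - 2`
  have h2 : c ^ 2 * (j.choose 2 : ℂ) + (#{v | G.degree v = 2} : ℂ) = ((#G.edgeFinset).choose 2 : ℂ) := by
    rw [← coverCount_pred2 hδ hm2]
    push_cast
    congr 1
    have h := coeff_eq G (#G.edgeFinset - 2)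
    rw [hp, coeff_X_pow_mul'] at h
    rw [← h]
    by_cases hj1 : j = 1
    · subst hj1
      rw [if_neg (by omega)]
      simp
    · rw [if_pos (by omega), coeff_X_add_C_pow]
      have e1 : #G.edgeFinset - 2 - a = j - 2 := by omega
      have e2 : j - (j - 2) = 2 := by omega
      have e3 : j.choose (j - 2) = j.choose 2 := Nat.choose_symm (by omega)
      rw [e1, e2, e3]
  -- the value at one
  have h3 : (total G : ℂ) = (1 + c) ^ j := by
    rw [← eval_one, hp]
    simp
  have h4 : total G * j ^ j = (j + #G.edgeFinset) ^ j := by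
    have : (total G : ℂ) * (j : ℂ) ^ j = ((j : ℂ) + #G.edgeFinset) ^ j := by
      rw [h3, ← mul_pow, ← h1]
      ring
    exact_mod_cast this
  have h5 : j ∣ j + #G.edgeFinset := by
    rw [← Nat.pow_dvd_pow_iff hj]
    exact ⟨total G, by rw [← h4, mul_comm]⟩
  obtain ⟨q, hq⟩ := (Nat.dvd_add_right (dvd_refl j)).1 h5
  have hcq : c = q := by
    have hj' : (j : ℂ) ≠ 0 := by exact_mod_cast hj
    apply mul_right_cancel₀ hj'
    rw [h1, hq]
    push_cast
    ring
  refine ⟨q, hq, ?_, ?_⟩
  · rw [hcq] at h3
    exact_mod_cast h3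
  · rw [hcq, Nat.cast_choose_two, Nat.cast_choose_two, hq] at h2
    rw [hq]
    have : 2 * (#{v | G.degree v = 2} : ℂ) + (j * q : ℕ) = ((j * q * q : ℕ) : ℂ) := by
      push_cast at h2 ⊢
      linear_combination 2 * h2
    exact_mod_cast this

lemma cover_card {a j : ℕ} {c : ℂ}
    (hp : edgeCoverPoly G = X ^ a * (X + C c) ^ j) {S : Finset (Sym2 V)} (hS : S ⊆ G.edgeFinset)
    (hcov : IsEdgeCovering S) : a ≤ #S := by
  by_contra hlt
  have h := coeff_eq G #S
  rw [hp, coeff_X_pow_mul', if_neg hlt] at h
  have h0 : coverCount G #S = 0 := by exact_mod_cast h.symm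
  unfold coverCount at h0
  rw [card_eq_zero, filter_eq_empty_iff] at h0
  exact h0 (mem_powerset.2 hS) ⟨rfl, hcov⟩

lemma regular_cover (hc : G.Connected) (hδ : ∀ v, 2 ≤ G.degree v)
    (hn : Fintype.card V = #G.edgeFinset) :
    ∃ S ⊆ G.edgeFinset, IsEdgeCovering S ∧ 2 * #S ≤ Fintype.card V + 1 := by
  have key : ∀ l, Even (Fintype.card V + l) → l ≤ 1 →
      ∃ S ⊆ G.edgeFinset, IsEdgeCovering S ∧ 2 * #S ≤ Fintype.card V + 1 := by
    intro l hl hl1
    obtain ⟨S, hS, hcov, hcard⟩ := exists_cover (fun v => le_trans one_le_two (hδ v)) l hl (by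
      intro A F hF
      rcases A.eq_empty_or_nonempty with rfl | hA
      · have h1 := hF.card_le_one hc
        rcases F.eq_empty_or_nonempty with rfl | hne
        · simp
        · have h3 := hF.odd_card hc hne
          rw [Nat.odd_iff] at h3
          obtain ⟨r, hr⟩ := hl
          rw [card_empty]
          omega
      · have h1 := hF.card_le hc hδ hA
        omega)
    exact ⟨S, hS, hcov, by omega⟩
  rcases Nat.even_or_odd (Fintype.card V) with h | h
  · exact key 0 (by simpa using h) (by omega)
  · exact key 1 (by rw [Nat.even_add_one, Nat.not_even_iff_odd]; exact h) le_rfl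

/-- a graph on three vertices with all degrees at least two is complete -/
lemma three_iso (hδ : ∀ v, 2 ≤ G.degree v) (hn : Fintype.card V = 3) :
    Nonempty (G ≃g (⊤ : SimpleGraph (Fin 3))) := by
  have htop : G = ⊤ := by
    ext v w
    rw [SimpleGraph.top_adj]
    refine ⟨fun h => h.ne, fun h => ?_⟩
    by_contra hcon
    have h1 : G.neighborFinset v ⊆ (univ.erase v).erase w := by
      intro t ht
      rw [SimpleGraph.mem_neighborFinset] at ht
      rw [mem_erase, mem_erase]
      exact ⟨by rintro rfl; exact hcon ht, ht.ne.symm, mem_univ _⟩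
    have h2 := card_le_card h1
    rw [SimpleGraph.card_neighborFinset_eq_degree, card_erase_of_mem (mem_erase.2
      ⟨Ne.symm h, mem_univ _⟩), card_erase_of_mem (mem_univ _), card_univ, hn] at h2
    have := hδ v
    omega
  subst htop
  obtain ⟨e⟩ : Nonempty (V ≃ Fin 3) := ⟨Fintype.equivFinOfCardEq hn⟩
  exact ⟨⟨e, by intro a b; simp⟩⟩

/-- the main theorem -/
theorem main (hc : G.Connected) (hmin : G.minDegree = 2)
    (hK : IsEmpty (G ≃g (⊤ : SimpleGraph (Fin 3)))) :
    3 ≤ Set.encard {z : ℂ | (edgeCoverPoly G).eval z = 0} := by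
  by_contra hcon
  have : Nonempty V := hc.nonempty
  have hδ : ∀ v, 2 ≤ G.degree v := fun v => by rw [← hmin]; exact G.minDegree_le_degree v
  obtain ⟨v₀, hv₀⟩ := G.exists_minimal_degree_vertex
  rw [hmin] at hv₀
  have hxs := sum_xs hδ
  have hn3 : 3 ≤ Fintype.card V := by
    have := G.degree_lt_card_verts v₀
    omega
  obtain ⟨a, j, c, haj, hp⟩ := poly_form hδ hcon
  obtain ⟨q, hq, htot, hn2⟩ := numbers hδ (by omega) haj hp
  have hpos : 1 ≤ #{v | G.degree v = 2} := by
    rw [Nat.one_le_iff_ne_zero, Ne, card_eq_zero]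
    intro h
    have : v₀ ∈ ({v | G.degree v = 2} : Finset V) := mem_filter.2 ⟨mem_univ _, hv₀.symm⟩
    rw [h] at this
    simp at this
  have hle : #{v | G.degree v = 2} ≤ Fintype.card V := by
    rw [← card_univ]; exact card_filter_le _ _
  have hcov : ∀ S ⊆ G.edgeFinset, IsEdgeCovering S → a ≤ #S :=
    fun S hS h => cover_card hp hS h
  -- the number of vertices of degree at least three
  have hxs2 : Fintype.card V ≤ #{v | G.degree v = 2} + ∑ v, xs G v := by
    have h1 : Fintype.card V = #{v | G.degree v = 2} + #{v | ¬ G.degree v = 2} := by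
      rw [← card_univ, card_filter_add_card_filter_not]
    have h2 : #{v | ¬ G.degree v = 2} ≤ ∑ v, xs G v := by
      rw [card_eq_sum_ones]
      refine le_trans (sum_le_sum (f := fun _ => 1) (g := fun v => xs G v) ?_)
        (sum_le_sum_of_subset (filter_subset _ _))
      intro v hv
      rw [mem_filter] at hv
      have := hδ v
      unfold xs
      omega
    omega
  have hq1 : 1 < q := by
    by_contra hcon2
    have h1 : #G.edgeFinset * q ≤ #G.edgeFinset * 1 := Nat.mul_le_mul le_rfl (by omega)
    omega
  have hq3 : q ≤ 3 := by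
    by_contra hcon2
    have h1 : #G.edgeFinset * 4 ≤ #G.edgeFinset * q := Nat.mul_le_mul le_rfl (by omega)
    omega
  obtain rfl | rfl : q = 2 ∨ q = 3 := by omega
  · -- the roots are `0` and `-2`
    by_cases hbig : Fintype.card V + 2 ≤ #G.edgeFinset
    · have h := case_two hc hδ (j := j) (by omega) hbig (fun S hS h => by
        have := hcov S hS h
        omega) (by omega)
      rw [htot] at h
      norm_num at h
    · by_cases heq : Fintype.card V = #G.edgeFinset
      · omega
      · have hV5 : Fintype.card V = 5 ∨ Fintype.card V = 3 := by omega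
        rcases hV5 with hV | hV
        · have h := five_lt hδ hV (by omega) (by omega)
          have hj3 : j = 3 := by omega
          rw [htot, hj3] at h
          norm_num at h
        · exact hK.elim (three_iso hδ hV).some
  · -- the roots are `0` and `-3`
    have hn : Fintype.card V = #G.edgeFinset := by omega
    obtain ⟨S, hS, hcovS, hcard⟩ := regular_cover hc hδ hn
    have h1 := hcov S hS hcovS
    have hV : Fintype.card V = 3 := by omega
    exact hK.elim (three_iso hδ hV).some

end Pool.Agent.N370.EC
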