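import Pool.Agent.N370.EC.Total

set_option autoImplicit false
set_option linter.unusedSectionVars false

namespace Pool.Agent.N370.EC

open Finset

variable {V : Type} [Fintype V] [DecidableEq V] {G : SimpleGraph V} [DecidableRel G.Adj]

/-- the house graph -/
lemma house {b c p q r : V} (hall : ∀ v : V, v = b ∨ v = c ∨ v = p ∨ v = q ∨ v = r)
    (hbc : b ≠ c) (hbp : b ≠ p) (hbq : b ≠ q) (hbr : b ≠ r) (hcp : c ≠ p) (hcq : c ≠ q)
    (hcr : c ≠ r) (hpq : p ≠ q) (hpr : p ≠ r) (hqr : q ≠ r)
    (nbp : ¬ G.Adj b p) (ncq : ¬ G.Adj c q) (npr : ¬ G.Adj p r) (nqr : ¬ G.Adj q r) :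
    total G < 27 := by
  have hE : ∀ e ∈ G.edgeFinset, e = s(b, c) ∨ e = s(b, q) ∨ e = s(b, r) ∨ e = s(c, p) ∨
      e = s(c, r) ∨ e = s(p, q) := by
    intro e he
    induction e with
    | _ x y =>
      have hadj : G.Adj x y := by simpa using he
      have hne := hadj.ne
      rcases hall x with rfl | rfl | rfl | rfl | rfl <;>
      rcases hall y with rfl | rfl | rfl | rfl | rfl <;>
      first
        | exact absurd rfl hne
        | exact absurd hadj nbp
        | exact absurd hadj.symm nbp
        | exact absurd hadj ncq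
        | exact absurd hadj.symm ncq
        | exact absurd hadj npr
        | exact absurd hadj.symm npr
        | exact absurd hadj nqr
        | exact absurd hadj.symm nqr
        | exact Or.inl rfl
        | exact Or.inl Sym2.eq_swap
        | exact Or.inr (Or.inl rfl)
        | exact Or.inr (Or.inl Sym2.eq_swap)
        | exact Or.inr (Or.inr (Or.inl rfl))
        | exact Or.inr (Or.inr (Or.inl Sym2.eq_swap))
        | exact Or.inr (Or.inr (Or.inr (Or.inl rfl)))
        | exact Or.inr (Or.inr (Or.inr (Or.inl Sym2.eq_swap)))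
        | exact Or.inr (Or.inr (Or.inr (Or.inr (Or.inl rfl))))
        | exact Or.inr (Or.inr (Or.inr (Or.inr (Or.inl Sym2.eq_swap))))
        | exact Or.inr (Or.inr (Or.inr (Or.inr (Or.inr rfl))))
        | exact Or.inr (Or.inr (Or.inr (Or.inr (Or.inr Sym2.eq_swap))))
  set T : Finset (Bool × Bool × Bool × Bool × Bool × Bool) := univ.filter
    (fun w => (w.1 || w.2.1 || w.2.2.1) && (w.1 || w.2.2.2.1 || w.2.2.2.2.1) &&
      (w.2.2.2.1 || w.2.2.2.2.2) && (w.2.1 || w.2.2.2.2.2) && (w.2.2.1 || w.2.2.2.2.1)) with hT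
  have hTcard : #T = 26 := by rw [hT]; decide
  have hle : total G ≤ #T := by
    unfold total
    refine card_le_card_of_injOn
      (fun S => (decide (s(b, c) ∈ S), decide (s(b, q) ∈ S), decide (s(b, r) ∈ S),
        decide (s(c, p) ∈ S), decide (s(c, r) ∈ S), decide (s(p, q) ∈ S))) ?_ ?_
    · intro S hS
      rw [mem_coe, mem_filter, mem_powerset] at hS
      rw [mem_coe, hT, mem_filter]
      refine ⟨mem_univ _, ?_⟩
      obtain ⟨hS1, hS2⟩ := hS
      have h1 : s(b, c) ∈ S ∨ s(b, q) ∈ S ∨ s(b, r) ∈ S := by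
        obtain ⟨e, he, hve⟩ := hS2 b
        rcases hE e (hS1 he) with rfl | rfl | rfl | rfl | rfl | rfl
        · exact Or.inl he
        · exact Or.inr (Or.inl he)
        · exact Or.inr (Or.inr he)
        · exact absurd hve (by simp [hbc, hbp])
        · exact absurd hve (by simp [hbc, hbr])
        · exact absurd hve (by simp [hbp, hbq])
      have h2 : s(b, c) ∈ S ∨ s(c, p) ∈ S ∨ s(c, r) ∈ S := by
        obtain ⟨e, he, hve⟩ := hS2 c
        rcases hE e (hS1 he) with rfl | rfl | rfl | rfl | rfl | rfl
        · exact Or.inl he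
        · exact absurd hve (by simp [hbc.symm, hcq])
        · exact absurd hve (by simp [hbc.symm, hcr])
        · exact Or.inr (Or.inl he)
        · exact Or.inr (Or.inr he)
        · exact absurd hve (by simp [hcp, hcq])
      have h3 : s(c, p) ∈ S ∨ s(p, q) ∈ S := by
        obtain ⟨e, he, hve⟩ := hS2 p
        rcases hE e (hS1 he) with rfl | rfl | rfl | rfl | rfl | rfl
        · exact absurd hve (by simp [hbp.symm, hcp.symm])
        · exact absurd hve (by simp [hbp.symm, hpq])
        · exact absurd hve (by simp [hbp.symm, hpr])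
        · exact Or.inl he
        · exact absurd hve (by simp [hcp.symm, hpr])
        · exact Or.inr he
      have h4 : s(b, q) ∈ S ∨ s(p, q) ∈ S := by
        obtain ⟨e, he, hve⟩ := hS2 q
        rcases hE e (hS1 he) with rfl | rfl | rfl | rfl | rfl | rfl
        · exact absurd hve (by simp [hbq.symm, hcq.symm])
        · exact Or.inl he
        · exact absurd hve (by simp [hbq.symm, hqr])
        · exact absurd hve (by simp [hcq.symm, hpq.symm])
        · exact absurd hve (by simp [hcq.symm, hqr])
        · exact Or.inr he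
      have h5 : s(b, r) ∈ S ∨ s(c, r) ∈ S := by
        obtain ⟨e, he, hve⟩ := hS2 r
        rcases hE e (hS1 he) with rfl | rfl | rfl | rfl | rfl | rfl
        · exact absurd hve (by simp [hbr.symm, hcr.symm])
        · exact absurd hve (by simp [hbr.symm, hqr.symm])
        · exact Or.inl he
        · exact absurd hve (by simp [hcr.symm, hpr.symm])
        · exact Or.inr he
        · exact absurd hve (by simp [hpr.symm, hqr.symm])
      simp only [Bool.and_eq_true, Bool.or_eq_true, decide_eq_true_eq, or_assoc]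
      exact ⟨⟨⟨⟨h1, h2⟩, h3⟩, h4⟩, h5⟩
    · intro S hS S' hS' hSS
      rw [mem_coe, mem_filter, mem_powerset] at hS hS'
      simp only [Prod.mk.injEq, decide_eq_decide] at hSS
      obtain ⟨s1, s2, s3, s4, s5, s6⟩ := hSS
      ext e
      constructor
      · intro he
        rcases hE e (hS.1 he) with rfl | rfl | rfl | rfl | rfl | rfl
        exacts [s1.1 he, s2.1 he, s3.1 he, s4.1 he, s5.1 he, s6.1 he]
      · intro he
        rcases hE e (hS'.1 he) with rfl | rfl | rfl | rfl | rfl | rfl
        exacts [s1.2 he, s2.2 he, s3.2 he, s4.2 he, s5.2 he, s6.2 he]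
  omega

lemma nbr_sub {v : V} {N : Finset V} (h : ∀ w, G.Adj v w → w ∈ N) : G.neighborFinset v ⊆ N := by
  intro w hw
  exact h w (by simpa using hw)

lemma deg_le_of {v : V} {N : Finset V} (h : ∀ w, G.Adj v w → w ∈ N) : G.degree v ≤ #N := by
  rw [← SimpleGraph.card_neighborFinset_eq_degree]
  exact card_le_card (nbr_sub h)

lemma le_deg_of {v : V} {N : Finset V} (h : ∀ w ∈ N, G.Adj v w) : #N ≤ G.degree v := by
  rw [← SimpleGraph.card_neighborFinset_eq_degree]
  refine card_le_card fun w hw => ?_
  simpa using h w hw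

lemma two_ne {v u w : V} (hd : 3 ≤ G.degree v) (h : ∀ t, G.Adj v t → t = u ∨ t = w) : False := by
  have h1 : G.degree v ≤ #({u, w} : Finset V) := by
    apply deg_le_of
    intro t ht
    simpa using h t ht
  have h2 := card_le_two (a := u) (b := w)
  omega

lemma one_ne {v u : V} (hd : 2 ≤ G.degree v) (h : ∀ t, G.Adj v t → t = u) : False := by
  have h1 : G.degree v ≤ #({u} : Finset V) := by
    apply deg_le_of
    intro t ht
    simpa using h t ht
  rw [card_singleton] at h1
  omega

lemma three_ne {v u w t : V} (hd : G.degree v = 2) (h1 : u ≠ w) (h2 : u ≠ t) (h3 : w ≠ t)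
    (a1 : G.Adj v u) (a2 : G.Adj v w) (a3 : G.Adj v t) : False := by
  have h : #({u, w, t} : Finset V) ≤ G.degree v := by
    apply le_deg_of
    intro s hs
    simp only [mem_insert, mem_singleton] at hs
    rcases hs with rfl | rfl | rfl <;> assumption
  rw [card_eq_three.2 ⟨u, w, t, h1, h2, h3, rfl⟩] at h
  omega

lemma four_ne {v u w t s : V} (hd : G.degree v = 3) (h1 : u ≠ w) (h2 : u ≠ t) (h3 : w ≠ t)
    (h4 : s ≠ u) (h5 : s ≠ w) (h6 : s ≠ t) (a1 : G.Adj v u) (a2 : G.Adj v w) (a3 : G.Adj v t)
    (a4 : G.Adj v s) : False := by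
  have h : #({s, u, w, t} : Finset V) ≤ G.degree v := by
    apply le_deg_of
    intro s hs
    simp only [mem_insert, mem_singleton] at hs
    rcases hs with rfl | rfl | rfl | rfl <;> assumption
  rw [card_insert_of_notMem (by simp [h4, h5, h6]),
    card_eq_three.2 ⟨u, w, t, h1, h2, h3, rfl⟩] at h
  omega

/-- two adjacent vertices of degree three, one of them not joined to `p` -/
lemma adj_case' {b c p q r : V} (hall : ∀ v : V, v = b ∨ v = c ∨ v = p ∨ v = q ∨ v = r)
    (hbp : b ≠ p) (hbq : b ≠ q) (hbr : b ≠ r) (hcp : c ≠ p) (hcq : c ≠ q)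
    (hcr : c ≠ r) (hpq : p ≠ q) (hpr : p ≠ r) (hqr : q ≠ r) (hbc : G.Adj b c)
    (db : G.degree b = 3) (dc : G.degree c = 3) (dp : G.degree p = 2) (dq : G.degree q = 2)
    (dr : G.degree r = 2) (nbp : ¬ G.Adj b p) : total G < 27 := by
  have abq : G.Adj b q := by
    by_contra hn
    refine two_ne (G := G) (v := b) (u := c) (w := r) (by omega) fun t ht => ?_
    rcases hall t with rfl | rfl | rfl | rfl | rfl
    · exact absurd rfl ht.ne
    · exact Or.inl rfl
    · exact absurd ht nbp
    · exact absurd ht hn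
    · exact Or.inr rfl
  have abr : G.Adj b r := by
    by_contra hn
    refine two_ne (G := G) (v := b) (u := c) (w := q) (by omega) fun t ht => ?_
    rcases hall t with rfl | rfl | rfl | rfl | rfl
    · exact absurd rfl ht.ne
    · exact Or.inl rfl
    · exact absurd ht nbp
    · exact Or.inr rfl
    · exact absurd ht hn
  have acp : G.Adj c p := by
    by_contra hn
    have acq : G.Adj c q := by
      by_contra hn2
      refine two_ne (G := G) (v := c) (u := b) (w := r) (by omega) fun t ht => ?_
      rcases hall t with rfl | rfl | rfl | rfl | rfl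
      · exact Or.inl rfl
      · exact absurd rfl ht.ne
      · exact absurd ht hn
      · exact absurd ht hn2
      · exact Or.inr rfl
    refine one_ne (G := G) (v := p) (u := r) (by omega) fun t ht => ?_
    rcases hall t with rfl | rfl | rfl | rfl | rfl
    · exact absurd ht.symm nbp
    · exact absurd ht.symm hn
    · exact absurd rfl ht.ne
    · exact (three_ne dq hbc.ne hbp hcp abq.symm acq.symm ht.symm).elim
    · rfl
  have hc3 : ¬ G.Adj c q ∨ ¬ G.Adj c r := by
    by_contra hcon
    push Not at hcon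
    exact four_ne dc hpq hpr hqr hbp hbq hbr acp hcon.1 hcon.2 hbc.symm
  rcases hc3 with ncq | ncr
  · have acr : G.Adj c r := by
      by_contra hn2
      refine two_ne (G := G) (v := c) (u := b) (w := p) (by omega) fun t ht => ?_
      rcases hall t with rfl | rfl | rfl | rfl | rfl
      · exact Or.inl rfl
      · exact absurd rfl ht.ne
      · exact Or.inr rfl
      · exact absurd ht ncq
      · exact absurd ht hn2
    refine house hall hbc.ne hbp hbq hbr hcp hcq hcr hpq hpr hqr nbp ncq ?_ ?_
    · intro h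
      exact three_ne dr hbc.ne hbp hcp abr.symm acr.symm h.symm
    · intro h
      exact three_ne dr hbc.ne hbq hcq abr.symm acr.symm h.symm
  · have acq : G.Adj c q := by
      by_contra hn2
      refine two_ne (G := G) (v := c) (u := b) (w := p) (by omega) fun t ht => ?_
      rcases hall t with rfl | rfl | rfl | rfl | rfl
      · exact Or.inl rfl
      · exact absurd rfl ht.ne
      · exact Or.inr rfl
      · exact absurd ht hn2
      · exact absurd ht ncr
    refine house (b := b) (c := c) (p := p) (q := r) (r := q) (fun v => ?_) hbc.ne hbp hbr hbq hcp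
      hcr hcq hpr hpq hqr.symm nbp ncr ?_ ?_
    · rcases hall v with h | h | h | h | h
      exacts [Or.inl h, Or.inr (Or.inl h), Or.inr (Or.inr (Or.inl h)),
        Or.inr (Or.inr (Or.inr (Or.inr h))), Or.inr (Or.inr (Or.inr (Or.inl h)))]
    · intro h
      exact three_ne dq hbc.ne hbp hcp abq.symm acq.symm h.symm
    · intro h
      exact three_ne dq hbc.ne hbr hcr abq.symm acq.symm h.symm

/-- two adjacent vertices of degree three on five vertices -/
lemma adj_case {b c x y z : V} (hall : ∀ v : V, v = b ∨ v = c ∨ v = x ∨ v = y ∨ v = z)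
    (hbx : b ≠ x) (hby : b ≠ y) (hbz : b ≠ z) (hcx : c ≠ x) (hcy : c ≠ y)
    (hcz : c ≠ z) (hxy : x ≠ y) (hxz : x ≠ z) (hyz : y ≠ z) (hbc : G.Adj b c)
    (db : G.degree b = 3) (dc : G.degree c = 3) (dx : G.degree x = 2) (dy : G.degree y = 2)
    (dz : G.degree z = 2) : total G < 27 := by
  have h : ¬ G.Adj b x ∨ ¬ G.Adj b y ∨ ¬ G.Adj b z := by
    by_contra hcon
    push Not at hcon
    exact four_ne db hxy hxz hyz hcx hcy hcz hcon.1 hcon.2.1 hcon.2.2 hbc
  rcases h with h | h | h
  · exact adj_case' hall hbx hby hbz hcx hcy hcz hxy hxz hyz hbc db dc dx dy dz h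
  · refine adj_case' (p := y) (q := x) (r := z) (fun v => ?_) hby hbx hbz hcy hcx hcz hxy.symm
      hyz hxz hbc db dc dy dx dz h
    rcases hall v with h | h | h | h | h
    exacts [Or.inl h, Or.inr (Or.inl h), Or.inr (Or.inr (Or.inr (Or.inl h))),
      Or.inr (Or.inr (Or.inl h)), Or.inr (Or.inr (Or.inr (Or.inr h)))]
  · refine adj_case' (p := z) (q := x) (r := y) (fun v => ?_) hbz hbx hby hcz hcx hcy hxz.symm
      hyz.symm hxy hbc db dc dz dx dy h
    rcases hall v with h | h | h | h | h
    exacts [Or.inl h, Or.inr (Or.inl h), Or.inr (Or.inr (Or.inr (Or.inl h))),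
      Or.inr (Or.inr (Or.inr (Or.inr h))), Or.inr (Or.inr (Or.inl h))]

/-- two non-adjacent vertices of degree three on five vertices -/
lemma nonadj_case (hδ : ∀ v, 2 ≤ G.degree v) {b c x y z : V}
    (hall : ∀ v : V, v = b ∨ v = c ∨ v = x ∨ v = y ∨ v = z)
    (hbc' : b ≠ c) (hbx : b ≠ x) (hby : b ≠ y) (hbz : b ≠ z) (hcx : c ≠ x) (hcy : c ≠ y)
    (hcz : c ≠ z) (hxy : x ≠ y) (hxz : x ≠ z) (hyz : y ≠ z) (hbc : ¬ G.Adj b c)
    (db : G.degree b = 3) (dc : G.degree c = 3) (dx : G.degree x = 2) (dy : G.degree y = 2)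
    (dz : G.degree z = 2) : total G < 27 := by
  have hcb : ¬ G.Adj c b := fun h => hbc h.symm
  have key : ∀ u, G.degree u = 3 → ¬ G.Adj u b → ¬ G.Adj u c → G.Adj u x ∧ G.Adj u y ∧ G.Adj u z := by
    intro u hu h1 h2
    refine ⟨?_, ?_, ?_⟩
    · by_contra hn
      refine two_ne (G := G) (v := u) (u := y) (w := z) (by omega) fun t ht => ?_
      rcases hall t with rfl | rfl | rfl | rfl | rfl
      exacts [absurd ht h1, absurd ht h2, absurd ht hn, Or.inl rfl, Or.inr rfl]
    · by_contra hn
      refine two_ne (G := G) (v := u) (u := x) (w := z) (by omega) fun t ht => ?_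
      rcases hall t with rfl | rfl | rfl | rfl | rfl
      exacts [absurd ht h1, absurd ht h2, Or.inl rfl, absurd ht hn, Or.inr rfl]
    · by_contra hn
      refine two_ne (G := G) (v := u) (u := x) (w := y) (by omega) fun t ht => ?_
      rcases hall t with rfl | rfl | rfl | rfl | rfl
      exacts [absurd ht h1, absurd ht h2, Or.inl rfl, Or.inr rfl, absurd ht hn]
  obtain ⟨abx, aby, abz⟩ := key b db (G.loopless.irrefl b) hbc
  obtain ⟨acx, acy, acz⟩ := key c dc hcb (G.loopless.irrefl c)
  have nxy : ¬ G.Adj x y := fun h => three_ne dx hbc' hby hcy abx.symm acx.symm h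
  have nxz : ¬ G.Adj x z := fun h => three_ne dx hbc' hbz hcz abx.symm acx.symm h
  have nyz : ¬ G.Adj y z := fun h => three_ne dy hbc' hbz hcz aby.symm acy.symm h
  have hF : Fam G {b, c} {{x}, {y}, {z}} := by
    refine ⟨?_, ?_, ?_, ?_⟩
    · intro O hO
      simp only [mem_insert, mem_singleton] at hO
      rcases hO with rfl | rfl | rfl <;> simp
    · intro O hO O' hO' hne
      simp only [mem_insert, mem_singleton] at hO hO'
      rcases hO with rfl | rfl | rfl <;> rcases hO' with rfl | rfl | rfl <;>
        first | exact absurd rfl hne | (rw [disjoint_singleton]; rintro rfl; exact hne rfl)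
    · intro O hO
      simp only [mem_insert, mem_singleton] at hO
      rcases hO with rfl | rfl | rfl <;> rw [disjoint_singleton_left] <;>
        simp [hbx.symm, hcx.symm, hby.symm, hcy.symm, hbz.symm, hcz.symm]
    · intro O hO u hu t ht
      simp only [mem_insert, mem_singleton] at hO
      rcases hO with rfl | rfl | rfl <;> rw [mem_singleton] at hu <;> subst hu <;>
        rcases hall t with rfl | rfl | rfl | rfl | rfl <;>
        first
          | exact absurd rfl ht.ne
          | exact absurd ht nxy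
          | exact absurd ht.symm nxy
          | exact absurd ht nxz
          | exact absurd ht.symm nxz
          | exact absurd ht nyz
          | exact absurd ht.symm nyz
          | (refine Or.inr ?_; simp)
  have h := hF.total_lt hδ (by simp) (by
    intro v hv
    unfold nb
    rw [card_eq_zero, eq_empty_iff_forall_notMem]
    intro w hw
    rw [mem_filter] at hw
    simp only [mem_insert, mem_singleton] at hv hw
    rcases hv with rfl | rfl <;> rcases hw with ⟨rfl | rfl, hw⟩
    exacts [hw.ne rfl, hbc hw, hcb hw, hw.ne rfl]) (by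
    rw [eq_empty_iff_forall_notMem]
    intro v hv
    rw [mem_rest] at hv
    rcases hall v with rfl | rfl | rfl | rfl | rfl
    · exact hv.1 (by simp)
    · exact hv.1 (by simp)
    · exact hv.2 {v} (by simp) (by simp)
    · exact hv.2 {v} (by simp) (by simp)
    · exact hv.2 {v} (by simp) (by simp)) (by
    intro O hO
    simp only [mem_insert, mem_singleton] at hO
    rcases hO with rfl | rfl | rfl <;> rw [card_singleton]
    · exact cov_one dx
    · exact cov_one dy
    · exact cov_one dz)
  have hs : ∑ O ∈ ({{x}, {y}, {z}} : Finset (Finset V)), (#O + 1) / 2 = 3 := by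
    rw [sum_insert (by simp [hxy, hxz]), sum_insert (by simp [hyz]), sum_singleton]
    simp
  rw [hs] at h
  simpa using h

/-- five vertices and six edges -/
theorem five_lt (hδ : ∀ v, 2 ≤ G.degree v) (hV : Fintype.card V = 5) (hm : #G.edgeFinset = 6)
    (hn2 : #{v | G.degree v = 2} = 3) : total G < 27 := by
  have hxs := sum_xs hδ
  rw [hV, hm] at hxs
  have hd : ∀ v, G.degree v = xs G v + 2 := fun v => by unfold xs; have := hδ v; omega
  obtain ⟨x, y, z, hxy, hxz, hyz, hN⟩ := card_eq_three.1 hn2
  have hB : #((univ : Finset V) \ {x, y, z}) = 2 := by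
    rw [card_sdiff_of_subset (subset_univ _), card_univ, hV, card_eq_three.2 ⟨x, y, z, hxy, hxz, hyz, rfl⟩]
  obtain ⟨b, c, hbc, hB'⟩ := card_eq_two.1 hB
  have hb : b ∈ (univ : Finset V) \ {x, y, z} := by rw [hB']; simp
  have hc : c ∈ (univ : Finset V) \ {x, y, z} := by rw [hB']; simp
  simp only [mem_sdiff, mem_univ, true_and, mem_insert, mem_singleton, not_or] at hb hc
  have hall : ∀ v : V, v = b ∨ v = c ∨ v = x ∨ v = y ∨ v = z := by
    intro v
    by_cases hv : v ∈ ({x, y, z} : Finset V)
    · simp only [mem_insert, mem_singleton] at hv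
      tauto
    · have : v ∈ (univ : Finset V) \ {x, y, z} := mem_sdiff.2 ⟨mem_univ _, hv⟩
      rw [hB'] at this
      simp only [mem_insert, mem_singleton] at this
      tauto
  have hdeg : ∀ v ∈ ({x, y, z} : Finset V), G.degree v = 2 := by
    intro v hv
    rw [← hN] at hv
    exact (mem_filter.1 hv).2
  have dx := hdeg x (by simp)
  have dy := hdeg y (by simp)
  have dz := hdeg z (by simp)
  have hdeg' : ∀ v, v ∉ ({x, y, z} : Finset V) → 1 ≤ xs G v := by
    intro v hv
    rw [← hN, mem_filter, not_and] at hv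
    have := hv (mem_univ _)
    have := hδ v
    unfold xs
    omega
  have xb := hdeg' b (by simp [hb.1, hb.2.1, hb.2.2])
  have xc := hdeg' c (by simp [hc.1, hc.2.1, hc.2.2])
  have hsum : ∑ v, xs G v = 2 := by omega
  have hsum2 : ∑ v ∈ ({b, c} : Finset V), xs G v ≤ 2 := by
    rw [← hsum]
    exact sum_le_sum_of_subset (subset_univ _)
  rw [sum_pair hbc] at hsum2
  have db : G.degree b = 3 := by rw [hd]; omega
  have dc : G.degree c = 3 := by rw [hd]; omega
  by_cases h : G.Adj b c
  · exact adj_case hall hb.1 hb.2.1 hb.2.2 hc.1 hc.2.1 hc.2.2 hxy hxz hyz h db dc dx dy dz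
  · exact nonadj_case hδ hall hbc hb.1 hb.2.1 hb.2.2 hc.1 hc.2.1 hc.2.2 hxy hxz hyz h db dc dx dy dz

end Pool.Agent.N370.EC
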