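import Pool.Agent.N370.EC.Five

set_option autoImplicit false
set_option linter.unusedSectionVars false

namespace Pool.Agent.N370.EC

open Finset Polynomial

variable {V : Type} [Fintype V] [DecidableEq V] (G : SimpleGraph V) [DecidableRel G.Adj]

theorem poly_eq_sum :
    edgeCoverPoly G = ∑ S ∈ G.edgeFinset.powerset with IsEdgeCovering S, (X : ℂ[X]) ^ #S := by
  unfold edgeCoverPoly coverCount
  have h : ∀ S ∈ (G.edgeFinset.powerset).filter IsEdgeCovering, #S ∈ range (#G.edgeFinset + 1) := by
    intro S hS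
    rw [mem_filter, mem_powerset] at hS
    rw [mem_range]
    exact Nat.lt_succ_of_le (card_le_card hS.1)
  rw [← Finset.sum_fiberwise_of_maps_to h]
  refine sum_congr rfl fun i _ => ?_
  rw [Finset.card_eq_sum_ones, Nat.cast_sum, sum_mul]
  have : ((G.edgeFinset.powerset).filter IsEdgeCovering).filter (fun S => #S = i) =
      (G.edgeFinset.powerset).filter (fun S => #S = i ∧ IsEdgeCovering S) := by
    ext S; simp only [mem_filter]; tauto
  rw [this]
  refine sum_congr rfl fun S hS => ?_
  rw [mem_filter] at hS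
  rw [hS.2.1]; simp

lemma eval_one : (edgeCoverPoly G).eval 1 = total G := by
  rw [poly_eq_sum, eval_finsetSum]
  simp [total]

lemma coeff_eq (i : ℕ) : (edgeCoverPoly G).coeff i = coverCount G i := by
  unfold edgeCoverPoly
  rw [finsetSum_coeff]
  simp only [coeff_natCast_mul, coeff_X_pow]
  by_cases hi : i ∈ range (#G.edgeFinset + 1)
  · rw [sum_eq_single_of_mem i hi]
    · simp
    · intro b _ hb
      rw [if_neg (fun h => hb h.symm), mul_zero]
  · rw [sum_eq_zero]
    · unfold coverCount
      rw [filter_eq_empty_iff.2, card_empty, Nat.cast_zero]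
      intro S hS hc
      rw [mem_powerset] at hS
      apply hi
      rw [mem_range, ← hc.1]
      exact Nat.lt_succ_of_le (card_le_card hS)
    · intro b hb
      rw [if_neg (by rintro rfl; exact hi hb), mul_zero]

lemma covering_compl {T : Finset (Sym2 V)} :
    IsEdgeCovering (G.edgeFinset \ T) ↔ ∀ v, ¬ (G.incidenceFinset v ⊆ T) := by
  unfold IsEdgeCovering
  refine forall_congr' fun v => ?_
  rw [subset_iff]
  push Not
  refine exists_congr fun e => ?_
  rw [mem_sdiff, SimpleGraph.mem_incidenceFinset, SimpleGraph.mem_edgeFinset]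
  unfold SimpleGraph.incidenceSet
  simp only [Set.mem_ofPred_eq]
  tauto

lemma coverCount_compl {i : ℕ} (hi : i ≤ #G.edgeFinset) : coverCount G (#G.edgeFinset - i) =
    #((powersetCard i G.edgeFinset).filter (fun T => ∀ v, ¬ (G.incidenceFinset v ⊆ T))) := by
  unfold coverCount
  refine card_nbij' (fun S => G.edgeFinset \ S) (fun S => G.edgeFinset \ S) ?_ ?_ ?_ ?_
  · intro S hS
    rw [mem_coe, mem_filter, mem_powerset] at hS
    rw [mem_coe, mem_filter, mem_powersetCard]
    refine ⟨⟨sdiff_subset, ?_⟩, ?_⟩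
    · rw [card_sdiff_of_subset hS.1, hS.2.1]
      omega
    · rw [← covering_compl, Finset.sdiff_sdiff_eq_self hS.1]
      exact hS.2.2
  · intro S hS
    rw [mem_coe, mem_filter, mem_powersetCard] at hS
    rw [mem_coe, mem_filter, mem_powerset]
    refine ⟨sdiff_subset, ?_, ?_⟩
    · rw [card_sdiff_of_subset hS.1.1, hS.1.2]
    · rw [covering_compl]
      exact hS.2
  · intro S hS
    rw [mem_coe, mem_filter, mem_powerset] at hS
    exact Finset.sdiff_sdiff_eq_self hS.1
  · intro S hS
    rw [mem_coe, mem_filter, mem_powersetCard] at hS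
    exact Finset.sdiff_sdiff_eq_self hS.1.1

variable {G}

lemma two_le_of_inc (hδ : ∀ v, 2 ≤ G.degree v) {v : V} {T : Finset (Sym2 V)}
    (h : G.incidenceFinset v ⊆ T) : 2 ≤ #T := by
  have := card_le_card h
  rw [SimpleGraph.card_incidenceFinset_eq_degree] at this
  exact (hδ v).trans this

lemma coverCount_top (hδ : ∀ v, 2 ≤ G.degree v) : coverCount G #G.edgeFinset = 1 := by
  have h := coverCount_compl G (i := 0) (Nat.zero_le _)
  rw [Nat.sub_zero] at h
  rw [h, powersetCard_zero, filter_true_of_mem, card_singleton]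
  intro T hT v hv
  rw [mem_singleton] at hT
  have := two_le_of_inc hδ hv
  rw [hT, card_empty] at this
  omega

lemma coverCount_pred (hδ : ∀ v, 2 ≤ G.degree v) (hm : 1 ≤ #G.edgeFinset) :
    coverCount G (#G.edgeFinset - 1) = #G.edgeFinset := by
  rw [coverCount_compl G hm, filter_true_of_mem, card_powersetCard, Nat.choose_one_right]
  intro T hT v hv
  rw [mem_powersetCard] at hT
  have := two_le_of_inc hδ hv
  omega

lemma inc_inj {v w : V} (hv : G.degree v = 2) (h : G.incidenceFinset v = G.incidenceFinset w) :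
    v = w := by
  by_contra hne
  have h1 : G.incidenceFinset v ⊆ {s(v, w)} := by
    intro e he
    have he2 := he
    rw [h] at he2
    rw [SimpleGraph.mem_incidenceFinset] at he he2
    rw [mem_singleton]
    exact (Sym2.mem_and_mem_iff hne).1 ⟨he.2, he2.2⟩
  have h2 := card_le_card h1
  rw [SimpleGraph.card_incidenceFinset_eq_degree, card_singleton] at h2
  omega

lemma coverCount_pred2 (hδ : ∀ v, 2 ≤ G.degree v) (hm : 2 ≤ #G.edgeFinset) :
    coverCount G (#G.edgeFinset - 2) + #{v | G.degree v = 2} = (#G.edgeFinset).choose 2 := by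
  rw [coverCount_compl G hm, ← card_powersetCard,
    ← card_filter_add_card_filter_not (s := powersetCard 2 G.edgeFinset)
      (p := fun T => ∀ v, ¬ (G.incidenceFinset v ⊆ T))]
  congr 1
  refine card_bij (fun v _ => G.incidenceFinset v) ?_ ?_ ?_
  · intro v hv
    rw [mem_filter] at hv
    rw [mem_filter, mem_powersetCard]
    refine ⟨⟨?_, ?_⟩, ?_⟩
    · intro e he
      rw [SimpleGraph.mem_incidenceFinset] at he
      rw [SimpleGraph.mem_edgeFinset]
      exact he.1
    · rw [SimpleGraph.card_incidenceFinset_eq_degree, hv.2]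
    · push Not
      exact ⟨v, Subset.rfl⟩
  · intro v hv w hw h
    exact inc_inj (mem_filter.1 hv).2 h
  · intro T hT
    rw [mem_filter, mem_powersetCard] at hT
    obtain ⟨⟨h1, h2⟩, h3⟩ := hT
    push Not at h3
    obtain ⟨v, hv⟩ := h3
    have h4 : G.incidenceFinset v = T := by
      apply eq_of_subset_of_card_le hv
      rw [h2, SimpleGraph.card_incidenceFinset_eq_degree]
      exact hδ v
    refine ⟨v, ?_, h4⟩
    rw [mem_filter]
    refine ⟨mem_univ _, ?_⟩
    rw [← SimpleGraph.card_incidenceFinset_eq_degree, h4, h2]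

lemma coverCount_zero [Nonempty V] : coverCount G 0 = 0 := by
  unfold coverCount
  rw [card_eq_zero, filter_eq_empty_iff]
  intro S _ h
  obtain ⟨e, he, -⟩ := h.2 (Classical.arbitrary V)
  rw [card_eq_zero.1 h.1] at he
  simp at he

lemma coverCount_gt {i : ℕ} (hi : #G.edgeFinset < i) : coverCount G i = 0 := by
  unfold coverCount
  rw [card_eq_zero, filter_eq_empty_iff]
  intro S hS h
  rw [mem_powerset] at hS
  have := card_le_card hS
  omega

lemma natDegree_eq (hδ : ∀ v, 2 ≤ G.degree v) : (edgeCoverPoly G).natDegree = #G.edgeFinset := by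
  apply natDegree_eq_of_le_of_coeff_ne_zero
  · rw [natDegree_le_iff_coeff_eq_zero]
    intro N hN
    rw [coeff_eq, coverCount_gt hN, Nat.cast_zero]
  · rw [coeff_eq, coverCount_top hδ]
    simp

lemma monic_poly (hδ : ∀ v, 2 ≤ G.degree v) : (edgeCoverPoly G).Monic := by
  unfold Monic leadingCoeff
  rw [natDegree_eq hδ, coeff_eq, coverCount_top hδ, Nat.cast_one]

lemma prod_form (w : ℂ) (s : Multiset ℂ) (hs : ∀ z ∈ s, z = 0 ∨ z = w) :
    ∃ a j : ℕ, a + j = Multiset.card s ∧ (s.map (fun z => X - C z)).prod = X ^ a * (X - C w) ^ j := by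
  induction s using Multiset.induction with
  | empty => exact ⟨0, 0, by simp, by simp⟩
  | cons z s ih =>
    obtain ⟨a, j, h1, h2⟩ := ih (fun z hz => hs z (Multiset.mem_cons_of_mem hz))
    rw [Multiset.card_cons, Multiset.map_cons, Multiset.prod_cons, h2, ← h1]
    rcases hs z (Multiset.mem_cons_self z s) with rfl | rfl
    · refine ⟨a + 1, j, by ring, ?_⟩
      rw [C_0, sub_zero]
      ring
    · exact ⟨a, j + 1, by ring, by ring⟩

/-- the form of the polynomial if there are at most two roots -/
lemma poly_form [Nonempty V] (hδ : ∀ v, 2 ≤ G.degree v)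
    (h : ¬ 3 ≤ Set.encard {z : ℂ | (edgeCoverPoly G).eval z = 0}) :
    ∃ (a j : ℕ) (c : ℂ), a + j = #G.edgeFinset ∧ edgeCoverPoly G = X ^ a * (X + C c) ^ j := by
  have hmon := monic_poly hδ
  have hne : edgeCoverPoly G ≠ 0 := hmon.ne_zero
  have hset : {z : ℂ | (edgeCoverPoly G).eval z = 0} = ((edgeCoverPoly G).roots.toFinset : Set ℂ) := by
    ext z
    simp only [Set.mem_ofPred_eq, mem_coe, Multiset.mem_toFinset, mem_roots hne, IsRoot.def]
  rw [hset, Set.encard_coe_eq_coe_finsetCard, not_le] at h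
  have h3 : #(edgeCoverPoly G).roots.toFinset < 3 := by exact_mod_cast h
  have h0 : (0 : ℂ) ∈ (edgeCoverPoly G).roots.toFinset := by
    rw [Multiset.mem_toFinset, mem_roots hne, IsRoot.def, ← coeff_zero_eq_eval_zero, coeff_eq,
      coverCount_zero, Nat.cast_zero]
  have h4 : #((edgeCoverPoly G).roots.toFinset.erase 0) ≤ 1 := by
    rw [card_erase_of_mem h0]; omega
  rw [card_le_one_iff_subset_singleton] at h4
  obtain ⟨w, hw⟩ := h4
  have h5 : ∀ z ∈ (edgeCoverPoly G).roots, z = 0 ∨ z = w := by
    intro z hz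
    by_cases hz0 : z = 0
    · exact Or.inl hz0
    · right
      have := hw (mem_erase.2 ⟨hz0, Multiset.mem_toFinset.2 hz⟩)
      simpa using this
  obtain ⟨a, j, haj, hp⟩ := prod_form w _ h5
  have hsp := IsAlgClosed.splits (edgeCoverPoly G)
  refine ⟨a, j, -w, ?_, ?_⟩
  · rw [haj, ← natDegree_eq hδ]
    exact hsp.natDegree_eq_card_roots.symm
  · rw [C_neg, ← sub_eq_add_neg, ← hp]
    exact hsp.eq_prod_roots_of_monic hmon

end Pool.Agent.N370.EC
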