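import Pool.Agent.N370.EC.TB
import Pool.Agent.N370.EC.Defs

set_option autoImplicit false
set_option linter.unusedSectionVars false

namespace Pool.Agent.N370.EC

open Finset

variable {V : Type} [Fintype V] [DecidableEq V] (G : SimpleGraph V) [DecidableRel G.Adj]

/-- number of neighbours of `v` in `Y` -/
def nb (v : V) (Y : Finset V) : ℕ := #(Y.filter (fun w => G.Adj v w))

/-- the excess of the degree over two -/
def xs (v : V) : ℕ := G.degree v - 2

lemma nb_univ (v : V) : nb G v univ = G.degree v := by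
  unfold nb
  rw [← SimpleGraph.card_neighborFinset_eq_degree]
  congr 1
  ext w
  simp

lemma nb_union (v : V) {X Y : Finset V} (h : Disjoint X Y) : nb G v (X ∪ Y) = nb G v X + nb G v Y := by
  unfold nb
  rw [filter_union, card_union_of_disjoint]
  exact disjoint_filter_filter h

lemma sum_nb_comm (X Y : Finset V) : ∑ v ∈ X, nb G v Y = ∑ v ∈ Y, nb G v X := by
  unfold nb
  have h := Finset.sum_card_bipartiteAbove_eq_sum_card_bipartiteBelow (s := X) (t := Y)
    (r := fun a b => G.Adj a b)
  unfold bipartiteAbove bipartiteBelow at h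
  rw [h]
  refine sum_congr rfl fun v _ => ?_
  congr 1
  ext w
  simp only [mem_filter, SimpleGraph.adj_comm]

lemma even_sum_nb (O : Finset V) : Even (∑ v ∈ O, nb G v O) := by
  classical
  let H : SimpleGraph V :=
    { Adj := fun v w => G.Adj v w ∧ v ∈ O ∧ w ∈ O
      symm := ⟨fun v w h => ⟨h.1.symm, h.2.2, h.2.1⟩⟩
      loopless := ⟨fun v h => G.loopless.irrefl v h.1⟩ }
  have h := H.sum_degrees_eq_twice_card_edges
  have h2 : ∑ v, H.degree v = ∑ v ∈ O, nb G v O := by
    rw [← sum_subset (subset_univ O)]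
    · refine sum_congr rfl fun v hv => ?_
      rw [← SimpleGraph.card_neighborFinset_eq_degree]
      unfold nb
      congr 1
      ext w
      simp only [SimpleGraph.mem_neighborFinset, mem_filter, H]
      tauto
    · intro v _ hv
      rw [← SimpleGraph.card_neighborFinset_eq_degree, card_eq_zero, eq_empty_iff_forall_notMem]
      intro w hw
      rw [SimpleGraph.mem_neighborFinset] at hw
      exact hv hw.2.1
  rw [← h2, h]
  exact even_two_mul _

/-- a family of disjoint odd sets which are closed up to `A` -/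
structure Fam (A : Finset V) (F : Finset (Finset V)) : Prop where
  odd : ∀ O ∈ F, Odd #O
  dis : ∀ O ∈ F, ∀ O' ∈ F, O ≠ O' → Disjoint O O'
  sub : ∀ O ∈ F, Disjoint O A
  clos : ∀ O ∈ F, ∀ x ∈ O, ∀ y, G.Adj x y → y ∈ O ∨ y ∈ A

variable {G}

lemma closed_univ (hc : G.Connected) {S : Finset V} (hS : S.Nonempty)
    (h : ∀ x ∈ S, ∀ y, G.Adj x y → y ∈ S) (v : V) : v ∈ S := by
  obtain ⟨u, hu⟩ := hS
  obtain ⟨p⟩ := hc.preconnected u v
  induction p with
  | nil => exact hu
  | cons hadj p ih => exact ih (h _ hu _ hadj)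

section

variable (hc : G.Connected) (hδ : ∀ v, 2 ≤ G.degree v) {A : Finset V} {F : Finset (Finset V)}

include hδ in
lemma deg_eq (v : V) : G.degree v = xs G v + 2 := by
  unfold xs; have := hδ v; omega

lemma Fam.deg_split (hF : Fam G A F) {O : Finset V} (hO : O ∈ F) {v : V} (hv : v ∈ O) :
    G.degree v = nb G v O + nb G v A := by
  rw [← nb_union G v (hF.sub O hO), ← nb_univ]
  unfold nb
  congr 1
  ext w
  simp only [mem_filter, mem_univ, true_and, mem_union]
  constructor
  · intro h
    exact ⟨hF.clos O hO v hv w h, h⟩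
  · exact fun h => h.2

include hc in
lemma Fam.eps_pos (hF : Fam G A F) (hA : A.Nonempty) {O : Finset V} (hO : O ∈ F) :
    1 ≤ ∑ v ∈ O, nb G v A := by
  by_contra hcon
  have h0 : ∑ v ∈ O, nb G v A = 0 := by omega
  rw [sum_eq_zero_iff] at h0
  obtain ⟨a, ha⟩ := hA
  have hne : O.Nonempty := card_pos.1 (hF.odd O hO).pos
  have h1 : ∀ x ∈ O, ∀ y, G.Adj x y → y ∈ O := by
    intro x hx y hxy
    rcases hF.clos O hO x hx y hxy with h | h
    · exact h
    · exfalso
      have h2 := h0 x hx
      unfold nb at h2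
      rw [card_eq_zero, eq_empty_iff_forall_notMem] at h2
      exact h2 y (mem_filter.2 ⟨h, hxy⟩)
  exact disjoint_left.1 (hF.sub O hO) (closed_univ hc hne h1 a) ha

include hδ in
lemma Fam.sum_deg (hF : Fam G A F) {O : Finset V} (hO : O ∈ F) :
    ∑ v ∈ O, xs G v + 2 * #O = ∑ v ∈ O, nb G v O + ∑ v ∈ O, nb G v A := by
  rw [← sum_add_distrib, ← sum_congr rfl fun v hv => hF.deg_split hO hv,
    sum_congr rfl fun v _ => deg_eq hδ v, sum_add_distrib, sum_const, smul_eq_mul, mul_comm 2]

include hc hδ in
/-- the local inequality -/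
lemma Fam.two_le (hF : Fam G A F) (hA : A.Nonempty) {O : Finset V} (hO : O ∈ F) :
    2 ≤ ∑ v ∈ O, nb G v A + ∑ v ∈ O, xs G v := by
  have h1 := hF.eps_pos hc hA hO
  have h2 := hF.sum_deg hδ hO
  obtain ⟨r, hr⟩ := even_sum_nb G O
  omega

/-- the vertices outside `A` and the members of `F` -/
def rest (A : Finset V) (F : Finset (Finset V)) : Finset V := (univ \ A) \ F.biUnion id

lemma mem_rest {v : V} : v ∈ rest A F ↔ v ∉ A ∧ ∀ O ∈ F, v ∉ O := by
  unfold rest
  simp only [mem_sdiff, mem_univ, true_and, mem_biUnion, id]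
  push Not
  rfl

lemma Fam.sum_split (hF : Fam G A F) (f : V → ℕ) :
    ∑ v ∈ univ \ A, f v = ∑ O ∈ F, ∑ v ∈ O, f v + ∑ v ∈ rest A F, f v := by
  have h1 : F.biUnion id ⊆ univ \ A := by
    intro v hv
    rw [mem_biUnion] at hv
    obtain ⟨O, hO, hv⟩ := hv
    rw [mem_sdiff]
    exact ⟨mem_univ _, disjoint_left.1 (hF.sub O hO) hv⟩
  have h2 : ∑ O ∈ F, ∑ v ∈ O, f v = ∑ v ∈ F.biUnion id, f v := by
    rw [sum_biUnion]
    · rfl
    · intro O hO O' hO' hne
      exact hF.dis O hO O' hO' hne
  rw [h2, add_comm]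
  unfold rest
  exact (sum_sdiff h1).symm

include hδ in
lemma sum_xs : ∑ v, xs G v + 2 * Fintype.card V = 2 * #G.edgeFinset := by
  rw [← G.sum_degrees_eq_twice_card_edges, sum_congr rfl fun v _ => deg_eq hδ v, sum_add_distrib,
    sum_const, smul_eq_mul, card_univ, mul_comm 2]

include hδ in
/-- the main identity -/
lemma Fam.identity (hF : Fam G A F) :
    ∑ O ∈ F, (∑ v ∈ O, nb G v A + ∑ v ∈ O, xs G v) + ∑ v ∈ rest A F, (nb G v A + xs G v) +
      ∑ v ∈ A, nb G v A + 2 * Fintype.card V = 2 * #G.edgeFinset + 2 * #A := by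
  have h1 := hF.sum_split (fun v => nb G v A + xs G v)
  have h2 := sum_xs hδ
  have h3 : ∑ v ∈ univ \ A, xs G v + ∑ v ∈ A, xs G v = ∑ v, xs G v :=
    sum_sdiff (subset_univ A)
  have h4 := sum_nb_comm G (univ \ A) A
  have h5 : ∑ v ∈ A, nb G v A + ∑ v ∈ A, nb G v (univ \ A) = ∑ v ∈ A, xs G v + 2 * #A := by
    rw [← sum_add_distrib]
    have : ∀ v ∈ A, nb G v A + nb G v (univ \ A) = xs G v + 2 := by
      intro v _
      rw [← nb_union G v disjoint_sdiff, union_sdiff_of_subset (subset_univ A), nb_univ]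
      exact deg_eq hδ v
    rw [sum_congr rfl this, sum_add_distrib, sum_const, smul_eq_mul, mul_comm 2]
  have h6 : ∑ O ∈ F, ∑ v ∈ O, (nb G v A + xs G v) =
      ∑ O ∈ F, (∑ v ∈ O, nb G v A + ∑ v ∈ O, xs G v) :=
    sum_congr rfl fun O _ => sum_add_distrib
  rw [h6, sum_add_distrib] at h1
  omega

include hc hδ in
/-- the bound for the number of odd sets -/
lemma Fam.card_le (hF : Fam G A F) (hA : A.Nonempty) :
    #F + Fintype.card V ≤ #G.edgeFinset + #A := by
  have h1 := hF.identity hδ
  have h2 : #F * 2 ≤ ∑ O ∈ F, (∑ v ∈ O, nb G v A + ∑ v ∈ O, xs G v) := by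
    rw [← smul_eq_mul]
    exact card_nsmul_le_sum _ _ _ fun O hO => hF.two_le hc hδ hA hO
  omega

include hc in
lemma Fam.card_le_one (hF : Fam G ∅ F) : #F ≤ 1 := by
  rw [Finset.card_le_one]
  intro O hO O' hO'
  have h1 : ∀ O ∈ F, O = univ := by
    intro O hO
    rw [eq_univ_iff_forall]
    refine closed_univ hc (card_pos.1 (hF.odd O hO).pos) ?_
    intro x hx y hxy
    rcases hF.clos O hO x hx y hxy with h | h
    · exact h
    · simp at h
  rw [h1 O hO, h1 O' hO']

include hc in
lemma Fam.odd_card (hF : Fam G ∅ F) (hne : F.Nonempty) : Odd (Fintype.card V) := by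
  obtain ⟨O, hO⟩ := hne
  have h1 : O = univ := by
    rw [eq_univ_iff_forall]
    refine closed_univ hc (card_pos.1 (hF.odd O hO).pos) ?_
    intro x hx y hxy
    rcases hF.clos O hO x hx y hxy with h | h
    · exact h
    · simp at h
  have h2 := hF.odd O hO
  rw [h1, card_univ] at h2
  exact h2

end

/-! ### from Tutte's condition to edge covers -/

/-- a small edge cover from a large matching -/
lemma exists_cover (hδ : ∀ v, 1 ≤ G.degree v) (l : ℕ) (heven : Even (Fintype.card V + l))
    (hcond : ∀ A F, Fam G A F → #F ≤ #A + l) :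
    ∃ S ⊆ G.edgeFinset, IsEdgeCovering S ∧ 2 * #S ≤ Fintype.card V + l := by
  obtain ⟨U, m, -, hUl, hm⟩ := tutte_berge G univ l (by rwa [card_univ]) (by
    intro A F _ h1 h2 h3 h4
    refine hcond A F ⟨h1, h2, ?_, ?_⟩
    · intro O hO
      have := h3 O hO
      rw [disjoint_left]
      intro x hx hxA
      exact (mem_sdiff.1 (this hx)).2 hxA
    · intro O hO x hx y hxy
      exact h4 O hO x hx y (mem_univ _) hxy)
  have hf : ∀ v, ∃ w, G.Adj v w := by
    intro v
    have := hδ v
    rw [← SimpleGraph.card_neighborFinset_eq_degree] at this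
    obtain ⟨w, hw⟩ := card_pos.1 this
    exact ⟨w, by simpa using hw⟩
  choose f hf using hf
  set S1 := (univ \ U).image (fun x => s(x, m x)) with hS1
  set S2 := U.image (fun x => s(x, f x)) with hS2
  refine ⟨S1 ∪ S2, ?_, ?_, ?_⟩
  · intro e he
    rw [mem_union, hS1, hS2, mem_image, mem_image] at he
    rw [SimpleGraph.mem_edgeFinset]
    rcases he with ⟨x, hx, rfl⟩ | ⟨x, hx, rfl⟩
    · exact (hm x hx).2.2
    · exact hf x
  · intro v
    by_cases hv : v ∈ U
    · exact ⟨s(v, f v), mem_union_right _ (mem_image_of_mem _ hv), by simp⟩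
    · exact ⟨s(v, m v), mem_union_left _ (mem_image_of_mem _ (mem_sdiff.2 ⟨mem_univ _, hv⟩)),
        by simp⟩
  · have h1 : 2 * #S1 ≤ #(univ \ U) := by
      apply mul_card_image_le_card
      intro e he
      rw [mem_image] at he
      obtain ⟨x, hx, rfl⟩ := he
      have hmx := hm x hx
      have hne : x ≠ m x := hmx.2.2.ne
      have hsub : ({x, m x} : Finset V) ⊆ (univ \ U).filter (fun y => s(y, m y) = s(x, m x)) := by
        intro y hy
        rw [mem_insert, mem_singleton] at hy
        rw [mem_filter]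
        rcases hy with rfl | rfl
        · exact ⟨hx, rfl⟩
        · exact ⟨hmx.1, by rw [hmx.2.1, Sym2.eq_swap]⟩
      calc 2 = #({x, m x} : Finset V) := (card_pair hne).symm
        _ ≤ _ := card_le_card hsub
    have h2 : #S2 ≤ #U := card_image_le
    have h3 : #(univ \ U) + #U = Fintype.card V := by
      rw [← card_univ, card_sdiff_add_card_eq_card (subset_univ U)]
    have h4 := card_union_le S1 S2
    omega

/-! ### the extremal family -/

section

variable (hc : G.Connected) (hδ : ∀ v, 2 ≤ G.degree v)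

include hc hδ in
/-- if `2 (n + l) < ...`: there is a family violating the condition of Tutte and Berge -/
lemma exists_fam {j : ℕ} (hm : #G.edgeFinset = 2 * j) (hn : Fintype.card V + 2 ≤ #G.edgeFinset)
    (hmin : ∀ S ⊆ G.edgeFinset, IsEdgeCovering S → #G.edgeFinset ≤ 2 * #S) :
    ∃ A F, Fam G A F ∧ A.Nonempty ∧ #G.edgeFinset + #A = #F + Fintype.card V := by
  by_contra hcon
  push Not at hcon
  obtain ⟨l, hl⟩ : ∃ l, l + Fintype.card V + 2 = #G.edgeFinset := ⟨#G.edgeFinset - 2 - Fintype.card V, by omega⟩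
  have heven : Even (Fintype.card V + l) := ⟨j - 1, by omega⟩
  obtain ⟨S, hS, hcov, hcard⟩ := exists_cover (fun v => le_trans one_le_two (hδ v)) l heven (by
    intro A F hF
    by_contra hlt
    push Not at hlt
    rcases A.eq_empty_or_nonempty with rfl | hA
    · have h1 := hF.card_le_one hc
      have h2 : F.Nonempty := card_pos.1 (by omega)
      have h3 := hF.odd_card hc h2
      have hl0 : l = 0 := by simp at hlt; omega
      rw [hl0, add_zero] at heven
      exact (Nat.not_even_iff_odd.2 h3) heven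
    · have h1 := hF.card_le hc hδ hA
      have h2 := hcon A F hF hA
      -- the remaining set is odd
      have h3 : #F + Fintype.card V + 1 = #G.edgeFinset + #A := by omega
      have h4 : #A + (∑ O ∈ F, #O + #(rest A F)) = Fintype.card V := by
        have h5 := hF.sum_split (fun _ => 1)
        simp only [sum_const, smul_eq_mul, mul_one] at h5
        rw [← h5, ← card_univ, add_comm, card_sdiff_add_card_eq_card (subset_univ A)]
      have h6 : (∑ O ∈ F, #O) % 2 = #F % 2 := by
        rw [card_eq_sum_ones F, sum_nat_mod, sum_nat_mod F 2 (fun _ => 1)]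
        congr 1
        refine sum_congr rfl fun O hO => ?_
        have := hF.odd O hO
        rw [Nat.odd_iff] at this
        omega
      have h7 : Odd #(rest A F) := by
        rw [Nat.odd_iff]
        obtain ⟨r, hr⟩ := heven
        omega
      have hF' : Fam G A (insert (rest A F) F) := by
        have hdis : ∀ O ∈ F, Disjoint (rest A F) O := by
          intro O hO
          rw [disjoint_left]
          intro x hx hxO
          exact (mem_rest.1 hx).2 O hO hxO
        refine ⟨?_, ?_, ?_, ?_⟩
        · intro O hO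
          rw [mem_insert] at hO
          rcases hO with rfl | hO
          · exact h7
          · exact hF.odd O hO
        · intro O hO O' hO' hne
          rw [mem_insert] at hO hO'
          rcases hO with rfl | hO <;> rcases hO' with rfl | hO'
          · exact absurd rfl hne
          · exact hdis O' hO'
          · exact (hdis O hO).symm
          · exact hF.dis O hO O' hO' hne
        · intro O hO
          rw [mem_insert] at hO
          rcases hO with rfl | hO
          · rw [disjoint_left]
            intro x hx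
            exact (mem_rest.1 hx).1
          · exact hF.sub O hO
        · intro O hO x hx y hxy
          rw [mem_insert] at hO
          rcases hO with rfl | hO
          · by_cases hy : y ∈ A
            · exact Or.inr hy
            · refine Or.inl (mem_rest.2 ⟨hy, fun O hO hyO => ?_⟩)
              rcases hF.clos O hO y hyO x hxy.symm with h | h
              · exact (mem_rest.1 hx).2 O hO h
              · exact (mem_rest.1 hx).1 h
          · exact hF.clos O hO x hx y hxy
      have hnot : rest A F ∉ F := by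
        intro hmem
        obtain ⟨x, hx⟩ := card_pos.1 h7.pos
        exact (mem_rest.1 hx).2 _ hmem hx
      have h8 := hcon A _ hF' hA
      rw [card_insert_of_notMem hnot] at h8
      omega)
  have := hmin S hS hcov
  omega

variable {A : Finset V} {F : Finset (Finset V)}

include hc hδ in
/-- the equality case -/
lemma Fam.extremal (hF : Fam G A F) (hA : A.Nonempty)
    (heq : #G.edgeFinset + #A = #F + Fintype.card V) :
    (∀ O ∈ F, ∑ v ∈ O, nb G v A + ∑ v ∈ O, xs G v = 2) ∧ (∀ v ∈ A, nb G v A = 0) ∧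
      rest A F = ∅ := by
  have h1 := hF.identity hδ
  have h2 : ∀ O ∈ F, 2 ≤ ∑ v ∈ O, nb G v A + ∑ v ∈ O, xs G v :=
    fun O hO => hF.two_le hc hδ hA hO
  have h3 : #F * 2 ≤ ∑ O ∈ F, (∑ v ∈ O, nb G v A + ∑ v ∈ O, xs G v) := by
    rw [← smul_eq_mul]
    exact card_nsmul_le_sum _ _ _ h2
  have h4 : ∑ O ∈ F, (∑ v ∈ O, nb G v A + ∑ v ∈ O, xs G v) = ∑ O ∈ F, 2 := by
    rw [sum_const, smul_eq_mul]; omega
  have h5 : ∑ v ∈ A, nb G v A = 0 := by omega
  have h6 : ∑ v ∈ rest A F, (nb G v A + xs G v) = 0 := by omega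
  refine ⟨?_, fun v hv => (sum_eq_zero_iff.1 h5) v hv, ?_⟩
  · intro O hO
    have h7 := (sum_eq_sum_iff_of_le h2).1 h4.symm O hO
    exact h7.symm
  · by_contra hne
    rw [← ne_eq, ← nonempty_iff_ne_empty] at hne
    obtain ⟨a, ha⟩ := hA
    have h8 : ∀ x ∈ rest A F, ∀ y, G.Adj x y → y ∈ rest A F := by
      intro x hx y hxy
      have h9 := (sum_eq_zero_iff.1 h6) x hx
      have h10 : nb G x A = 0 := by omega
      unfold nb at h10
      rw [card_eq_zero, eq_empty_iff_forall_notMem] at h10
      refine mem_rest.2 ⟨fun hy => h10 y (mem_filter.2 ⟨hy, hxy⟩), fun O hO hyO => ?_⟩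
      rcases hF.clos O hO y hyO x hxy.symm with h | h
      · exact (mem_rest.1 hx).2 O hO h
      · exact (mem_rest.1 hx).1 h
    exact (mem_rest.1 (closed_univ hc hne h8 a)).1 ha

end

end Pool.Agent.N370.EC
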