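import Pool.Agent.N370.EC.Count

set_option autoImplicit false
set_option linter.unusedSectionVars false

namespace Pool.Agent.N370.EC

open Finset

variable {V : Type} [Fintype V] [DecidableEq V] {G : SimpleGraph V} [DecidableRel G.Adj]

lemma adj_of_nb {O : Finset V} {v w : V} (hv : v ∈ O) (h : nb G v O + 1 = #O) (hw : w ∈ O)
    (hne : w ≠ v) : G.Adj v w := by
  unfold nb at h
  have h1 : O.filter (fun w => G.Adj v w) ⊆ O.erase v := by
    intro w hw
    rw [mem_filter] at hw
    exact mem_erase.2 ⟨hw.2.ne.symm, hw.1⟩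
  have h2 : O.filter (fun w => G.Adj v w) = O.erase v := by
    apply eq_of_subset_of_card_le h1
    rw [card_erase_of_mem hv]
    omega
  have h3 : w ∈ O.filter (fun w => G.Adj v w) := by
    rw [h2]; exact mem_erase.2 ⟨hne, hw⟩
  exact (mem_filter.1 h3).2

section

variable (hδ : ∀ v, 2 ≤ G.degree v) {A : Finset V} {F : Finset (Finset V)}

include hδ in
lemma Fam.cov_le (hF : Fam G A F) {O : Finset V} (hO : O ∈ F)
    (h1 : ∑ v ∈ O, nb G v A + ∑ v ∈ O, xs G v = 2) (heps : 1 ≤ ∑ v ∈ O, nb G v A)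
    (hs : #O = 1 + 2 * ∑ v ∈ O, xs G v) : #(cov G O) ≤ 3 ^ ((#O + 1) / 2) := by
  have hd : ∀ v, G.degree v = xs G v + 2 := fun v => by unfold xs; have := hδ v; omega
  have hsum := hF.sum_deg hδ hO
  obtain h0 | h0 : ∑ v ∈ O, xs G v = 0 ∨ ∑ v ∈ O, xs G v = 1 := by omega
  · have hc1 : #O = 1 := by omega
    obtain ⟨v, rfl⟩ := card_eq_one.1 hc1
    rw [sum_singleton] at h0
    rw [hc1]
    exact cov_one (by rw [hd, h0])
  · have hc3 : #O = 3 := by omega
    have h6 : ∑ v ∈ O, nb G v O = 6 := by omega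
    rw [hc3]
    have h7 : ∀ v ∈ O, nb G v O + 1 ≤ 3 := fun v hv => hc3 ▸ nb_le_erase hv
    obtain ⟨x, y, z, hxy, hxz, hyz, rfl⟩ := card_eq_three.1 hc3
    have hx := h7 x (by simp)
    have hy := h7 y (by simp)
    have hz := h7 z (by simp)
    have hxm : x ∉ ({y, z} : Finset V) := by simp [hxy, hxz]
    have hym : y ∉ ({z} : Finset V) := by simp [hyz]
    rw [sum_insert hxm, sum_insert hym, sum_singleton] at h6 h0
    have axy : G.Adj x y := adj_of_nb (O := {x, y, z}) (by simp) (by omega) (by simp) hxy.symm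
    have axz : G.Adj x z := adj_of_nb (O := {x, y, z}) (by simp) (by omega) (by simp) hxz.symm
    have ayz : G.Adj y z := adj_of_nb (O := {x, y, z}) (by simp) (by omega) (by simp) hyz.symm
    have dx := hd x
    have dy := hd y
    have dz := hd z
    obtain h | h | h : (xs G x = 0 ∧ xs G y = 0 ∧ xs G z = 1) ∨
        (xs G x = 0 ∧ xs G y = 1 ∧ xs G z = 0) ∨ (xs G x = 1 ∧ xs G y = 0 ∧ xs G z = 0) := by
      omega
    · exact cov_tri axy axz ayz (by omega) (by omega) (by omega)
    · have : ({x, y, z} : Finset V) = {x, z, y} := by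
        ext w; simp only [mem_insert, mem_singleton]; tauto
      rw [this]
      exact cov_tri axz axy ayz.symm (by omega) (by omega) (by omega)
    · have : ({x, y, z} : Finset V) = {y, z, x} := by
        ext w; simp only [mem_insert, mem_singleton]; tauto
      rw [this]
      exact cov_tri ayz axy.symm axz.symm (by omega) (by omega) (by omega)

/-- the total number of edge covers -/
def total (G : SimpleGraph V) [DecidableRel G.Adj] : ℕ := #(G.edgeFinset.powerset.filter IsEdgeCovering)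

include hδ in
lemma Fam.total_lt (hF : Fam G A F) (hA : A.Nonempty) (hAA : ∀ v ∈ A, nb G v A = 0)
    (hR : rest A F = ∅) (hcov : ∀ O ∈ F, #(cov G O) ≤ 3 ^ ((#O + 1) / 2)) :
    total G < 3 ^ (∑ O ∈ F, (#O + 1) / 2) := by
  have hmem : ∀ v, v ∉ A → ∃ O ∈ F, v ∈ O := by
    intro v hv
    by_contra hcon
    push Not at hcon
    have : v ∈ rest A F := mem_rest.2 ⟨hv, hcon⟩
    rw [hR] at this
    simp at this
  have hAA' : ∀ v ∈ A, ∀ w ∈ A, ¬ G.Adj v w := by
    intro v hv w hw h
    have h1 := hAA v hv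
    unfold nb at h1
    rw [card_eq_zero, eq_empty_iff_forall_notMem] at h1
    exact h1 w (mem_filter.2 ⟨hw, h⟩)
  -- every edge meets a member of `F`
  have hedge : ∀ e ∈ G.edgeFinset, ∃ O ∈ F, e ∈ EO G O := by
    intro e he
    induction e with
    | _ x y =>
      have hadj : G.Adj x y := by simpa using he
      by_cases hx : x ∈ A
      · have hy : y ∉ A := fun hy => hAA' x hx y hy hadj
        obtain ⟨O, hO, hyO⟩ := hmem y hy
        exact ⟨O, hO, mem_filter.2 ⟨he, y, hyO, by simp⟩⟩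
      · obtain ⟨O, hO, hxO⟩ := hmem x hx
        exact ⟨O, hO, mem_filter.2 ⟨he, x, hxO, by simp⟩⟩
  set P : Finset (Finset (Sym2 V)) :=
    G.edgeFinset.powerset.filter (fun S => ∀ v, v ∉ A → ∃ e ∈ S, v ∈ e) with hP
  -- strictness
  have hlt : total G < #P := by
    unfold total
    apply card_lt_card
    rw [ssubset_iff_of_subset]
    · obtain ⟨u, hu⟩ := hA
      refine ⟨G.edgeFinset.filter (fun e => u ∉ e), ?_, ?_⟩
      · rw [hP, mem_filter, mem_powerset]
        refine ⟨filter_subset _ _, fun v hv => ?_⟩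
        have hvu : v ≠ u := fun h => hv (h ▸ hu)
        obtain ⟨w, hw, hwu⟩ : ∃ w ∈ G.neighborFinset v, w ≠ u := by
          have h2 : 1 < #(G.neighborFinset v) := by
            rw [SimpleGraph.card_neighborFinset_eq_degree]; exact hδ v
          exact exists_mem_ne h2 u
        rw [SimpleGraph.mem_neighborFinset] at hw
        refine ⟨s(v, w), mem_filter.2 ⟨by simpa using hw, ?_⟩, by simp⟩
        rw [Sym2.mem_iff, not_or]
        exact ⟨hvu.symm, hwu.symm⟩
      · rw [mem_filter, not_and]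
        intro _ hcon
        obtain ⟨e, he, hue⟩ := hcon u
        exact (mem_filter.1 he).2 hue
    · intro S hS
      rw [mem_filter] at hS
      rw [hP, mem_filter]
      exact ⟨hS.1, fun v _ => hS.2 v⟩
  refine lt_of_lt_of_le hlt ?_
  rw [← prod_pow_eq_pow_sum]
  refine le_trans ?_ (prod_le_prod (fun _ _ => Nat.zero_le _) hcov)
  rw [← card_pi]
  refine card_le_card_of_injOn (fun S O _ => S.filter (fun e => e ∈ EO G O)) ?_ ?_
  · intro S hS
    rw [mem_coe, hP, mem_filter, mem_powerset] at hS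
    rw [mem_coe, mem_pi]
    intro O hO
    unfold cov
    rw [mem_filter, mem_powerset]
    refine ⟨fun e he => (mem_filter.1 he).2, fun v hv => ?_⟩
    obtain ⟨e, he, hve⟩ := hS.2 v (disjoint_left.1 (hF.sub O hO) hv)
    exact ⟨e, mem_filter.2 ⟨he, mem_filter.2 ⟨hS.1 he, v, hv, hve⟩⟩, hve⟩
  · intro S hS S' hS' hSS
    rw [mem_coe, hP, mem_filter, mem_powerset] at hS hS'
    have key : ∀ S S' : Finset (Sym2 V), S ⊆ G.edgeFinset →
        (∀ O (hO : O ∈ F), S.filter (fun e => e ∈ EO G O) = S'.filter (fun e => e ∈ EO G O)) →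
        S ⊆ S' := by
      intro S S' hS h e he
      obtain ⟨O, hO, heO⟩ := hedge e (hS he)
      have : e ∈ S.filter (fun e => e ∈ EO G O) := mem_filter.2 ⟨he, heO⟩
      rw [h O hO] at this
      exact (mem_filter.1 this).1
    have h1 : ∀ O (hO : O ∈ F), S.filter (fun e => e ∈ EO G O) =
        S'.filter (fun e => e ∈ EO G O) := by
      intro O hO
      exact congrFun (congrFun hSS O) hO
    exact Subset.antisymm (key S S' hS.1 h1) (key S' S hS'.1 fun O hO => (h1 O hO).symm)

end

/-- **Main combinatorial statement**: the case of the roots `0` and `-2`. -/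
theorem case_two (hc : G.Connected) (hδ : ∀ v, 2 ≤ G.degree v) {j : ℕ}
    (hm : #G.edgeFinset = 2 * j) (hn : Fintype.card V + 2 ≤ #G.edgeFinset)
    (hmin : ∀ S ⊆ G.edgeFinset, IsEdgeCovering S → #G.edgeFinset ≤ 2 * #S)
    (h2 : 2 * #{v | G.degree v = 2} = #G.edgeFinset) : total G < 3 ^ j := by
  obtain ⟨A, F, hF, hA, heq⟩ := exists_fam hc hδ hm hn hmin
  obtain ⟨e1, e2, e3⟩ := hF.extremal hc hδ hA heq
  have heps : ∀ O ∈ F, 1 ≤ ∑ v ∈ O, nb G v A := fun O hO => hF.eps_pos hc hA hO
  have hs := hF.sizes hδ heq e1 heps e3 h2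
  have hcov : ∀ O ∈ F, #(cov G O) ≤ 3 ^ ((#O + 1) / 2) :=
    fun O hO => hF.cov_le hδ hO (e1 O hO) (heps O hO) (hs O hO)
  have hlt := hF.total_lt hδ hA e2 e3 hcov
  have hsum : ∑ O ∈ F, (#O + 1) / 2 = j := by
    have h5 := hF.sum_split (fun _ => 1)
    simp only [sum_const, smul_eq_mul, mul_one] at h5
    rw [e3, card_empty, add_zero] at h5
    have h6 : #(univ \ A) + #A = Fintype.card V := by
      rw [← card_univ, card_sdiff_add_card_eq_card (subset_univ A)]
    have h7 : ∑ O ∈ F, (#O + 1) = ∑ O ∈ F, 2 * ((#O + 1) / 2) := by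
      refine sum_congr rfl fun O hO => ?_
      have := hF.odd O hO
      rw [Nat.odd_iff] at this
      omega
    rw [← mul_sum, sum_add_distrib, sum_const, smul_eq_mul, mul_one] at h7
    omega
  rwa [hsum] at hlt

end Pool.Agent.N370.EC
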